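import Pool.Agent.N213.GF.I

set_option autoImplicit false

/-! Classes of distributions of random integers given by digits: absolute values over the moduli, with
divisor-bounded weights and heights depending on the moduli. -/

namespace Pool.Agent.K9h59.WK
open Finset
open Pool.Agent.N625.DY
open Pool.Agent.N213.GF (sizes)

variable {b : ℕ} {κ : ℤ} {C : ℕ → (ℕ → ℝ) → Prop}

/-- the sums over the random residues, with absolute values over the moduli -/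
theorem cls_absolute (hC : Cls b κ C) (B T U : ℕ) (ε : ℝ) (hε : 0 < ε) :
    ∃ k₀ : ℕ, ∀ k : ℕ, k₀ ≤ k → ∀ p, C k p → ∀ c : ℤ, |c| ≤ B * (b : ℤ) ^ k → ∀ w : ℕ → ℝ,
    (∀ v, |w v| ≤ (k : ℝ) ^ T) → ∀ x : ℕ → ℕ, (∀ q, x q ≤ B * b ^ k) →
    ∑ q ∈ Icc 1 ⌊((b ^ k : ℕ) : ℝ) ^ (1 - ε)⌋₊, (q.divisors.card : ℝ) ^ T *
      |∑ v ∈ (range (b ^ k)).filter (fun v : ℕ => 0 < c + κ * (v : ℕ) ∧ (c + κ * (v : ℕ)).toNat.Coprime q),
        p v * (w v * Err (x q) q (c + κ * (v : ℕ)).toNat)| ≤ ((b ^ k : ℕ) : ℝ) / (k : ℝ) ^ U := by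
  have hb := hC.two
  obtain ⟨T₁, U₁, m, k1, hh⟩ := Pool.Agent.TH872.GQ.absolute T (U + 2)
  obtain ⟨k2, hl⟩ := cls_level hC B T₁ U₁ ε hε
  obtain ⟨k3, hs⟩ := sizes (b := b) hb B m ε hε
  refine ⟨k1 + k2 + k3 + B + 2, fun k hk p hp c hc w hw x hx => ?_⟩
  obtain ⟨s1, s2, s3⟩ := hs k (by omega)
  have hp0 := hC.nonneg k p hp
  have hk2 : (2 : ℝ) ≤ k := by exact_mod_cast (by omega : 2 ≤ k)
  have hk0 : (0 : ℝ) < k := by linarith
  have hbk : (0 : ℝ) ≤ ((b ^ k : ℕ) : ℝ) := Nat.cast_nonneg _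
  have hXk : ((b ^ k : ℕ) : ℝ) ≤ (((B + 1) * b ^ k : ℕ) : ℝ) := by
    exact_mod_cast Nat.le_mul_of_pos_left _ (Nat.succ_pos B)
  obtain ⟨Ω, hΩ⟩ : ∃ Ω : Finset ℕ, Ω = (range (b ^ k)).filter (fun v : ℕ => 0 < c + κ * (v : ℕ)) := ⟨_, rfl⟩
  obtain ⟨a, ha⟩ : ∃ a : ℕ → ℕ, a = fun v : ℕ => (c + κ * (v : ℕ)).toNat := ⟨_, rfl⟩
  have hyp : Pool.Agent.TH872.GQ.Hyp k ((B + 1) * b ^ k) (B * b ^ k) ⌊((b ^ k : ℕ) : ℝ) ^ (1 - ε)⌋₊ T₁ U₁ Ω p a := by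
    intro lam' hlam' E hdec hE
    refine le_trans ?_ (hl k (by omega) p hp c hc lam' hlam')
    rw [hΩ, sum_filter]
    apply sum_le_sum
    intro v hv
    by_cases h1 : 0 < c + κ * (v : ℕ)
    · rw [if_pos h1]
      by_cases h2 : E v
      · rw [if_pos h2, if_neg]
        intro h3
        obtain ⟨y, hy, hlt⟩ := hE v (by rw [hΩ, mem_filter]; exact ⟨hv, h1⟩) h2
        have h4 := h3 h1 y hy
        have h5 : ((b ^ k : ℕ) : ℝ) / (k : ℝ) ^ U₁ ≤ (((B + 1) * b ^ k : ℕ) : ℝ) / (k : ℝ) ^ U₁ :=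
          div_le_div_of_nonneg_right hXk (by positivity)
        have h6 : Pool.Agent.TH212.EH.W lam' ⌊((b ^ k : ℕ) : ℝ) ^ (1 - ε)⌋₊ y (a v) =
            ∑ q ∈ (Icc 1 ⌊((b ^ k : ℕ) : ℝ) ^ (1 - ε)⌋₊).filter (fun q => (c + κ * (v : ℕ)).toNat.Coprime q),
              lam' q * Err y q (c + κ * (v : ℕ)).toNat := by
          rw [ha]
          rfl
        rw [h6] at hlt
        linarith
      · rw [if_neg h2]
        split_ifs
        · exact le_rfl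
        · exact hp0 v
    · rw [if_neg h1]
      split_ifs
      · exact le_rfl
      · exact hp0 v
  have hsum : ∑ ω ∈ Ω, p ω ≤ 1 := by
    rw [← hC.sum k p hp, hΩ]
    exact sum_le_sum_of_subset_of_nonneg (filter_subset _ _) (fun v _ _ => hp0 v)
  have r := hh k (by omega) ((B + 1) * b ^ k) (B * b ^ k) _ (Nat.mul_le_mul_right _ (by omega)) s1 s2 s3 ℕ Ω p
    (fun v _ => hp0 v) hsum a hyp w hw x hx
  have hthr : (((B + 1) * b ^ k : ℕ) : ℝ) / (k : ℝ) ^ (U + 2) ≤ ((b ^ k : ℕ) : ℝ) / (k : ℝ) ^ U := by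
    rw [div_le_div_iff₀ (by positivity) (by positivity), pow_add]
    push_cast
    have h3 : (B : ℝ) + 1 ≤ k := by exact_mod_cast (by omega : B + 1 ≤ k)
    have h4 : (B : ℝ) + 1 ≤ (k : ℝ) ^ 2 := by nlinarith
    have h5 : (0 : ℝ) ≤ (b : ℝ) ^ k * (k : ℝ) ^ U := by positivity
    nlinarith
  refine le_trans (le_of_eq ?_) (r.trans hthr)
  apply sum_congr rfl
  intro q _
  rw [hΩ, ha, filter_filter]
  rfl

end Pool.Agent.K9h59.WK

namespace Pool.Agent.K9h59.WK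
open Finset
open Pool.Agent.N625.DY
open Pool.Agent.N213.GF (sizes)

/-- the uniform distribution on a set -/
lemma unif_sum (n : ℕ) (S : Finset ℕ) (hS : S ⊆ range n) (P : ℕ → Prop) [DecidablePred P] (f : ℕ → ℝ) :
    ∑ v ∈ (range n).filter P, (if v ∈ S then 1 / (S.card : ℝ) else 0) * f v =
      (∑ v ∈ S.filter P, f v) / S.card := by
  have h1 : (S.filter P) ⊆ (range n).filter P := by
    intro v hv
    rw [mem_filter] at hv ⊢
    exact ⟨hS hv.1, hv.2⟩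
  rw [sum_div, ← sum_subset h1]
  · apply sum_congr rfl
    intro v hv
    rw [if_pos (mem_filter.1 hv).1]
    ring
  · intro v hv hvS
    rw [if_neg, zero_mul]
    intro h
    exact hvS (mem_filter.2 ⟨h, (mem_filter.1 hv).2⟩)

/-- absolute values over the moduli for the uniform distribution on a set -/
lemma unif_absolute {b : ℕ} {κ : ℤ} (k T U B : ℕ) (ε : ℝ) (S : Finset ℕ) (hS : S ⊆ range (b ^ k)) (c : ℤ) (w : ℕ → ℝ)
    (x : ℕ → ℕ)
    (h : 0 < S.card → ∑ q ∈ Icc 1 ⌊((b ^ k : ℕ) : ℝ) ^ (1 - ε)⌋₊, (q.divisors.card : ℝ) ^ T *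
      |∑ v ∈ (range (b ^ k)).filter (fun v : ℕ => 0 < c + κ * (v : ℕ) ∧ (c + κ * (v : ℕ)).toNat.Coprime q),
        (if v ∈ S then 1 / (S.card : ℝ) else 0) * (w v * Err (x q) q (c + κ * (v : ℕ)).toNat)| ≤
        ((b ^ k : ℕ) : ℝ) / (k : ℝ) ^ U) :
    ∑ q ∈ Icc 1 ⌊((b ^ k : ℕ) : ℝ) ^ (1 - ε)⌋₊, (q.divisors.card : ℝ) ^ T *
      |∑ v ∈ S.filter (fun v : ℕ => 0 < c + κ * (v : ℕ) ∧ (c + κ * (v : ℕ)).toNat.Coprime q),
        w v * Err (x q) q (c + κ * (v : ℕ)).toNat| ≤ S.card * (((b ^ k : ℕ) : ℝ) / (k : ℝ) ^ U) := by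
  rcases Nat.eq_zero_or_pos S.card with h0 | h0
  · rw [card_eq_zero.1 h0]
    simp
  · have h1 := h h0
    have hM : (0 : ℝ) < S.card := by exact_mod_cast h0
    simp only [unif_sum _ S hS, abs_div, abs_of_pos hM, mul_div_assoc'] at h1
    rw [← sum_div, div_le_iff₀ hM] at h1
    linarith

end Pool.Agent.K9h59.WK
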